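import Mathlib
import Pool.Agent.Helper23_LAP.Stmts

/-!
# LAP, module MDT: the theorem of Mendelsohn and Dulmage
-/

set_option autoImplicit false

namespace Pool.Agent.LAP.H13

open scoped Classical
open Pool.Agent.LAP

/-- The monotone map of the proof. -/
def mdtT {α β : Type} (M₁ M₂ : Finset (α × β)) : Set α →o Set α where
  toFun A := {x | (∃ y, (x, y) ∈ M₁) ∧ ¬ ∃ y, (x, y) ∈ M₂ ∧ ¬ ∃ x' ∈ A, (x', y) ∈ M₁}
  monotone' := by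
    intro A B hAB x hx
    refine ⟨hx.1, ?_⟩
    rintro ⟨y, h1, h2⟩
    exact hx.2 ⟨y, h1, fun ⟨x', h3, h4⟩ => h2 ⟨x', hAB h3, h4⟩⟩

theorem mdt : MDTStmt := by
  intro α β _ _ S M₁ M₂ h1 h2 p1 p2
  set A : Set α := OrderHom.lfp (mdtT M₁ M₂) with hA
  have hfix : ∀ x, x ∈ A ↔ ((∃ y, (x, y) ∈ M₁) ∧
      ¬ ∃ y, (x, y) ∈ M₂ ∧ ¬ ∃ x' ∈ A, (x', y) ∈ M₁) := by
    intro x
    have h := OrderHom.map_lfp (mdtT M₁ M₂)
    rw [← hA] at h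
    conv_lhs => rw [← h]
    rfl
  refine ⟨M₁.filter (fun a => a.1 ∈ A) ∪ M₂.filter (fun a => ¬ ∃ x' ∈ A, (x', a.2) ∈ M₁),
    ?_, ⟨?_, ?_⟩, ?_, ?_⟩
  · exact Finset.union_subset ((Finset.filter_subset _ _).trans h1)
      ((Finset.filter_subset _ _).trans h2)
  · intro x y y' hy hy'
    simp only [Finset.mem_union, Finset.mem_filter] at hy hy'
    rcases hy with ⟨a1, a2⟩ | ⟨a1, a2⟩ <;> rcases hy' with ⟨b1, b2⟩ | ⟨b1, b2⟩
    · exact p1.1 x y y' a1 b1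
    · exact absurd ⟨y', b1, b2⟩ ((hfix x).1 a2).2
    · exact absurd ⟨y, a1, a2⟩ ((hfix x).1 b2).2
    · exact p2.1 x y y' a1 b1
  · intro x x' y hy hy'
    simp only [Finset.mem_union, Finset.mem_filter] at hy hy'
    rcases hy with ⟨a1, a2⟩ | ⟨a1, a2⟩ <;> rcases hy' with ⟨b1, b2⟩ | ⟨b1, b2⟩
    · exact p1.2 x x' y a1 b1
    · exact absurd ⟨x, a2, a1⟩ b2
    · exact absurd ⟨x', b2, b1⟩ a2
    · exact p2.2 x x' y a1 b1
  · intro x hx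
    unfold dom at hx ⊢
    rw [Finset.mem_image] at hx ⊢
    obtain ⟨⟨x₀, y⟩, hxy, rfl⟩ := hx
    by_cases hxA : x₀ ∈ A
    · exact ⟨(x₀, y), Finset.mem_union_left _ (Finset.mem_filter.2 ⟨hxy, hxA⟩), rfl⟩
    · have := (not_congr (hfix x₀)).1 hxA
      push Not at this
      obtain ⟨y', h3, h4⟩ := this ⟨y, hxy⟩
      refine ⟨(x₀, y'), Finset.mem_union_right _ (Finset.mem_filter.2 ⟨h3, ?_⟩), rfl⟩
      rintro ⟨x', h5, h6⟩
      exact h4 x' h5 h6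
  · intro y hy
    unfold ran at hy ⊢
    rw [Finset.mem_image] at hy ⊢
    obtain ⟨⟨x, y₀⟩, hxy, rfl⟩ := hy
    by_cases h : ∃ x' ∈ A, (x', y₀) ∈ M₁
    · obtain ⟨x', h3, h4⟩ := h
      exact ⟨(x', y₀), Finset.mem_union_left _ (Finset.mem_filter.2 ⟨h4, h3⟩), rfl⟩
    · exact ⟨(x, y₀), Finset.mem_union_right _ (Finset.mem_filter.2 ⟨hxy, h⟩), rfl⟩

end Pool.Agent.LAP.H13
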