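import Mathlib
import Pool.Agent.Helper23_LAP.Stmts
import Pool.Agent.Helper13_Conc.Tools

/-!
# LAP, module QFM: the mean of a quadratic form
-/

set_option autoImplicit false

namespace Pool.Agent.LAP.H13

open scoped Classical
open Pool.Agent.LAP

lemma ex_eq_mean {U S : Type} [Fintype U] [Fintype S] (f : (U → S) → ℝ) :
    ex f = Pool.Agent.Helper13_Conc.mean f := rfl

/-- The indicator as a function of one coordinate. -/
noncomputable def bb (s b : Bool) : ℝ := if xor b s = true then 1 else 0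

lemma cv_eq {U Λ : Type} (rep : Λ → U) (sg : Λ → Bool) (ω : U → Bool) (l : Λ) :
    cv rep sg ω l = bb (sg l) (ω (rep l)) := rfl

lemma sum_bb (s : Bool) : ∑ b, bb s b = 1 := by
  rw [Fintype.sum_bool]
  cases s <;> simp [bb]

lemma ex_cv {U Λ : Type} [Fintype U] (rep : Λ → U) (sg : Λ → Bool) (l : Λ) :
    ex (fun ω => cv rep sg ω l) = 1 / 2 := by
  rw [ex_eq_mean]
  have h := Pool.Agent.Helper13_Conc.mean_coord (rep l) (bb (sg l))
  have e : (fun ω : U → Bool => cv rep sg ω l) = fun ω => bb (sg l) (ω (rep l)) :=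
    funext fun ω => cv_eq rep sg ω l
  rw [e, h, sum_bb, Fintype.card_bool]
  norm_num

lemma ex_cv_mul {U Λ : Type} [Fintype U] {M : Finset Λ} {rep : Λ → U} {sg : Λ → Bool}
    (h : Coin M rep sg) {l l' : Λ} (hl : l ∈ M) (hl' : l' ∈ M) (hne : l ≠ l') :
    ex (fun ω => cv rep sg ω l * cv rep sg ω l') = if rep l = rep l' then 0 else 1 / 4 := by
  split_ifs with hr
  · have h1 := h l hl l' hl' hne hr
    have e : (fun ω : U → Bool => cv rep sg ω l * cv rep sg ω l') = fun _ => (0 : ℝ) := by
      funext ω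
      rw [cv_eq, cv_eq, ← hr]
      unfold bb
      revert h1
      generalize sg l = a
      generalize sg l' = b
      generalize ω (rep l) = c
      cases a <;> cases b <;> cases c <;> simp
    rw [e, ex_eq_mean]
    exact Pool.Agent.Helper13_Conc.mean_const 0
  · rw [ex_eq_mean]
    have hdep : ∀ l : Λ, Pool.Agent.Helper13_Conc.Dep {rep l}
        (fun ω : U → Bool => cv rep sg ω l) := by
      intro l ω ω' hω
      show cv rep sg ω l = cv rep sg ω' l
      rw [cv_eq, cv_eq, hω (rep l) (Finset.mem_singleton_self _)]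
    rw [Pool.Agent.Helper13_Conc.mean_mul_dep (W := {rep l}) (W' := {rep l'})
      (by rw [Finset.disjoint_singleton]; exact hr) (hdep l) (hdep l'), ← ex_eq_mean,
      ← ex_eq_mean, ex_cv, ex_cv]
    norm_num

theorem qfm : QFMStmt := by
  intro U Λ _ _ M rep sg I hC hI
  rw [ex_eq_mean, Pool.Agent.Helper13_Conc.mean_sum]
  have h1 : ∀ p ∈ I, Pool.Agent.Helper13_Conc.mean (fun ω : U → Bool =>
      cv rep sg ω p.1 * cv rep sg ω p.2) =
      1 / 4 - (if rep p.1 = rep p.2 then (1 : ℝ) / 4 else 0) := by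
    intro p hp
    obtain ⟨a, b, c⟩ := hI p hp
    rw [← ex_eq_mean, ex_cv_mul hC a b c]
    split_ifs <;> norm_num
  rw [Finset.sum_congr rfl h1, Finset.sum_sub_distrib, Finset.sum_const, nsmul_eq_mul,
    ← Finset.sum_filter, Finset.sum_const, nsmul_eq_mul]
  ring

end Pool.Agent.LAP.H13
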