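import Mathlib
import Pool.Agent.Helper23_LAP.Stmts
import Pool.Agent.Helper13_Conc.Basic
import Pool.Agent.Helper13_Conc.Linked

/-!
# LAP, module SLL: the local lemma for events around linked sets of sites
-/

set_option autoImplicit false

namespace Pool.Agent.LAP.H13

open scoped Classical
open Pool.Agent.LAP

lemma nr1_symm {W : Type} {r : W → W → Prop} (hr : ∀ u v, r u v → r v u) {u v : W}
    (h : nr1 r u v) : nr1 r v u := by
  rcases h with h | h
  · exact Or.inl h.symm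
  · exact Or.inr (hr _ _ h)

lemma nr3_symm {W : Type} {r : W → W → Prop} (hr : ∀ u v, r u v → r v u) {u v : W}
    (h : nr3 r u v) : nr3 r v u := by
  obtain ⟨a, b, h1, h2, h3⟩ := h
  exact ⟨b, a, nr1_symm hr h3, nr1_symm hr h2, nr1_symm hr h1⟩

lemma card_nr1 {W : Type} [Fintype W] {r : W → W → Prop} {k : ℕ}
    (hk : ∀ u, (Finset.univ.filter (r u)).card ≤ k) (u : W) :
    (Finset.univ.filter (nr1 r u)).card ≤ k + 1 := by
  have h : Finset.univ.filter (nr1 r u) ⊆ insert u (Finset.univ.filter (r u)) := by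
    intro v hv
    rw [Finset.mem_filter] at hv
    rw [Finset.mem_insert, Finset.mem_filter]
    rcases hv.2 with h | h
    · exact Or.inl h.symm
    · exact Or.inr ⟨Finset.mem_univ _, h⟩
  exact (Finset.card_le_card h).trans ((Finset.card_insert_le _ _).trans
    (Nat.succ_le_succ (hk u)))

lemma card_nr3 {W : Type} [Fintype W] {r : W → W → Prop} {k : ℕ}
    (hk : ∀ u, (Finset.univ.filter (r u)).card ≤ k) (hk2 : 2 ≤ k) (u : W) :
    (Finset.univ.filter (nr3 r u)).card ≤ k ^ 5 := by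
  have h : Finset.univ.filter (nr3 r u) ⊆ (Finset.univ.filter (nr1 r u)).biUnion fun a =>
      (Finset.univ.filter (nr1 r a)).biUnion fun b => Finset.univ.filter (nr1 r b) := by
    intro v hv
    obtain ⟨a, b, h1, h2, h3⟩ := (Finset.mem_filter.1 hv).2
    rw [Finset.mem_biUnion]
    refine ⟨a, Finset.mem_filter.2 ⟨Finset.mem_univ _, h1⟩, ?_⟩
    rw [Finset.mem_biUnion]
    exact ⟨b, Finset.mem_filter.2 ⟨Finset.mem_univ _, h2⟩,
      Finset.mem_filter.2 ⟨Finset.mem_univ _, h3⟩⟩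
  have h1 : ∀ a : W, ((Finset.univ.filter (nr1 r a)).biUnion fun b =>
      Finset.univ.filter (nr1 r b)).card ≤ (k + 1) * (k + 1) := by
    intro a
    refine Finset.card_biUnion_le.trans ?_
    calc ∑ b ∈ Finset.univ.filter (nr1 r a), (Finset.univ.filter (nr1 r b)).card
        ≤ ∑ b ∈ Finset.univ.filter (nr1 r a), (k + 1) :=
          Finset.sum_le_sum fun b _ => card_nr1 hk b
      _ = (Finset.univ.filter (nr1 r a)).card * (k + 1) := by rw [Finset.sum_const, smul_eq_mul]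
      _ ≤ (k + 1) * (k + 1) := Nat.mul_le_mul_right _ (card_nr1 hk a)
  have h2 : ((Finset.univ.filter (nr1 r u)).biUnion fun a =>
      (Finset.univ.filter (nr1 r a)).biUnion fun b => Finset.univ.filter (nr1 r b)).card ≤
      (k + 1) * ((k + 1) * (k + 1)) := by
    refine Finset.card_biUnion_le.trans ?_
    calc ∑ a ∈ Finset.univ.filter (nr1 r u), ((Finset.univ.filter (nr1 r a)).biUnion fun b =>
          Finset.univ.filter (nr1 r b)).card
        ≤ ∑ a ∈ Finset.univ.filter (nr1 r u), ((k + 1) * (k + 1)) :=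
          Finset.sum_le_sum fun a _ => h1 a
      _ = (Finset.univ.filter (nr1 r u)).card * ((k + 1) * (k + 1)) := by
          rw [Finset.sum_const, smul_eq_mul]
      _ ≤ (k + 1) * ((k + 1) * (k + 1)) := Nat.mul_le_mul_right _ (card_nr1 hk u)
  refine (Finset.card_le_card h).trans (h2.trans ?_)
  have h3 : 4 ≤ k * k := by nlinarith
  have h4 : 2 * (k + 1) ≤ 3 * k := by omega
  have h5 : (2 * (k + 1)) * ((2 * (k + 1)) * (2 * (k + 1))) ≤ (3 * k) * ((3 * k) * (3 * k)) :=
    Nat.mul_le_mul h4 (Nat.mul_le_mul h4 h4)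
  have h6 : k * (k * k) * 4 ≤ k * (k * k) * (k * k) := Nat.mul_le_mul_left _ h3
  have h7 : k ^ 5 = k * (k * k) * (k * k) := by ring
  rw [h7]
  have h8 : (2 * (k + 1)) * ((2 * (k + 1)) * (2 * (k + 1))) =
      8 * ((k + 1) * ((k + 1) * (k + 1))) := by ring
  have h9 : (3 * k) * ((3 * k) * (3 * k)) = 27 * (k * (k * k)) := by ring
  omega

/-- The numbers of the proof. -/
lemma sll_num (k L : ℕ) (hL : 10 ^ 4 ≤ L) (hkL : k ≤ 2 ^ L) :
    64 * (k : ℝ) ^ 19 ≤ Real.exp ((L : ℝ) ^ 2 / 2) := by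
  have h1 : (k : ℝ) ≤ Real.exp (L : ℝ) := by
    have h2 : (k : ℝ) ≤ (2 : ℝ) ^ L := by exact_mod_cast hkL
    have h3 : (2 : ℝ) ≤ Real.exp 1 := by
      have := Real.add_one_le_exp (1 : ℝ); linarith
    calc (k : ℝ) ≤ (2 : ℝ) ^ L := h2
      _ ≤ (Real.exp 1) ^ L := pow_le_pow_left₀ (by norm_num) h3 L
      _ = Real.exp (L : ℝ) := by rw [← Real.exp_nat_mul, mul_one]
  have h4 : (64 : ℝ) ≤ Real.exp 63 := by
    have := Real.add_one_le_exp (63 : ℝ); linarith
  have hLr : (10 : ℝ) ^ 4 ≤ L := by exact_mod_cast hL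
  calc 64 * (k : ℝ) ^ 19 ≤ Real.exp 63 * (Real.exp (L : ℝ)) ^ 19 :=
        mul_le_mul h4 (pow_le_pow_left₀ (Nat.cast_nonneg _) h1 19) (by positivity)
          (Real.exp_pos _).le
    _ = Real.exp (63 + 19 * L) := by
        rw [← Real.exp_nat_mul, ← Real.exp_add]; norm_num
    _ ≤ Real.exp ((L : ℝ) ^ 2 / 2) := Real.exp_le_exp.2 (by nlinarith)

lemma sum_biUnion_le {ι γ : Type} [DecidableEq γ] (s : Finset ι) (t : ι → Finset γ) (f : γ → ℝ)
    (hf : ∀ c, 0 ≤ f c) : ∑ c ∈ s.biUnion t, f c ≤ ∑ i ∈ s, ∑ c ∈ t i, f c := by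
  induction s using Finset.induction_on with
  | empty => simp
  | @insert a s ha ih =>
    rw [Finset.biUnion_insert, Finset.sum_insert ha]
    have h1 : ∑ c ∈ t a ∪ s.biUnion t, f c + ∑ c ∈ t a ∩ s.biUnion t, f c =
        ∑ c ∈ t a, f c + ∑ c ∈ s.biUnion t, f c := Finset.sum_union_inter
    have h2 : 0 ≤ ∑ c ∈ t a ∩ s.biUnion t, f c := Finset.sum_nonneg fun c _ => hf c
    linarith

theorem sll : SLLStmt := by
  intro W U S κ _ _ _ _ _ r k L loc Bad hr hk hk2 hL hkL hloc hlocw hκ hEv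
  -- the blocks
  have hB : ∀ i : κ × Finset W × Finset W, ∃ B : Finset U,
      (∀ ω ω' : U → S, (∀ u ∈ B, ω u = ω' u) → ω ∈ Bad i.1 i.2.1 i.2.2 →
        ω' ∈ Bad i.1 i.2.1 i.2.2) ∧
      (∀ u ∈ B, ∃ w ∈ loc u, ∃ z ∈ i.2.1 ∪ i.2.2, nr3 r w z) ∧
      (Lnk r (i.2.1 ∪ i.2.2) ∨ B = ∅) ∧
      (Bad i.1 i.2.1 i.2.2 = ∅ ∨ (Lnk r (i.2.1 ∪ i.2.2) ∧
        pr (Bad i.1 i.2.1 i.2.2) ≤ Real.exp (-((L : ℝ) ^ 2 * (i.2.1 ∪ i.2.2).card)))) := by
    intro i
    rcases hEv i.1 i.2.1 i.2.2 with h | ⟨h1, ⟨B, h2, h3⟩, h4⟩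
    · refine ⟨∅, ?_, ?_, Or.inr rfl, Or.inl h⟩
      · intro ω ω' _ hω
        rw [h] at hω
        exact absurd hω (Set.notMem_empty _)
      · intro u hu
        exact absurd hu (Finset.notMem_empty _)
    · exact ⟨B, h2, h3, Or.inl h1, Or.inr ⟨h1, h4⟩⟩
  choose B hB1 hB2 hB3 hB4 using hB
  set G : SimpleGraph W := SimpleGraph.fromRel (nr3 r) with hG
  have hadj : ∀ u v, G.Adj u v → v ∈ Finset.univ.filter (nr3 r u) := by
    intro u v h
    rw [hG, SimpleGraph.fromRel_adj] at h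
    rw [Finset.mem_filter]
    refine ⟨Finset.mem_univ _, ?_⟩
    rcases h.2 with h | h
    · exact h
    · exact nr3_symm hr h
  have hpre : ∀ Z : Finset W, Lnk r Z → (G.induce (Z : Set W)).Preconnected := by
    intro Z hZ
    rintro ⟨u, hu⟩ ⟨v, hv⟩
    have h := hZ.2 u hu v hv
    have key : ∀ w, Relation.ReflTransGen (fun a b => b ∈ Z ∧ nr3 r a b) u w →
        ∃ hw : w ∈ Z, (G.induce (Z : Set W)).Reachable ⟨u, hu⟩ ⟨w, hw⟩ := by
      intro w hw
      induction hw with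
      | refl => exact ⟨hu, SimpleGraph.Reachable.refl _⟩
      | @tail b c _ hbc ih =>
        obtain ⟨hbZ, hreach⟩ := ih
        refine ⟨hbc.1, ?_⟩
        by_cases hbc' : b = c
        · subst hbc'; exact hreach
        · refine hreach.trans (SimpleGraph.Adj.reachable ?_)
          rw [SimpleGraph.comap_adj]
          show G.Adj b c
          rw [hG, SimpleGraph.fromRel_adj]
          exact ⟨hbc', Or.inl hbc.2⟩
    obtain ⟨_, h2⟩ := key v h
    exact h2
  have hdeg : ∀ u, (Finset.univ.filter (nr3 r u)).card ≤ k ^ 5 := card_nr3 hk hk2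
  -- numbers
  have hnum := sll_num k L hL hkL
  have hLr : (10 : ℝ) ^ 4 ≤ L := by exact_mod_cast hL
  have hkr : (2 : ℝ) ≤ k := by exact_mod_cast hk2
  have hk1 : (1 : ℝ) ≤ k := by linarith
  set ε : ℝ := Real.exp (-((L : ℝ) ^ 2 / 2)) with hε
  have hε0 : 0 < ε := Real.exp_pos _
  have hε1 : 64 * (k : ℝ) ^ 19 * ε ≤ 1 := by
    have h := mul_le_mul_of_nonneg_right hnum hε0.le
    rwa [hε, ← Real.exp_add, add_neg_cancel, Real.exp_zero] at h
  set y : ℝ := 4 * ε with hy
  have hy0 : 0 ≤ y := by positivity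
  have hpw : (k : ℝ) ^ 10 ≤ (k : ℝ) ^ 19 := pow_le_pow_right₀ hk1 (by norm_num)
  have hy1 : 2 * (((k ^ 5 : ℕ) : ℝ)) ^ 2 * y ≤ 1 := by
    have e : 2 * (((k ^ 5 : ℕ) : ℝ)) ^ 2 * y = 8 * ((k : ℝ) ^ 10 * ε) := by
      rw [hy]; push_cast; ring
    rw [e]
    have h1 : (k : ℝ) ^ 10 * ε ≤ (k : ℝ) ^ 19 * ε := mul_le_mul_of_nonneg_right hpw hε0.le
    have h2 : 0 ≤ (k : ℝ) ^ 19 * ε := by positivity
    linarith
  -- the weights
  let x : κ × Finset W × Finset W → ℝ := fun i =>
    if Lnk r (i.2.1 ∪ i.2.2) then ε ^ (i.2.1 ∪ i.2.2).card else 0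
  have hx : ∀ i, x i = if Lnk r (i.2.1 ∪ i.2.2) then ε ^ (i.2.1 ∪ i.2.2).card else 0 :=
    fun i => rfl
  set σ : ℝ := 32 * (k : ℝ) ^ 9 * ε with hσ
  have hfib : ∀ z : W, ∑ i ∈ Finset.univ.filter
      (fun i : κ × Finset W × Finset W => z ∈ i.2.1 ∪ i.2.2), x i ≤ (k : ℝ) ^ 4 * (2 * y) := by
    intro z
    set 𝒜 : Finset (Finset W) := Finset.univ.filter (fun Z => z ∈ Z ∧ Lnk r Z) with h𝒜
    have e1 : ∑ i ∈ Finset.univ.filter
        (fun i : κ × Finset W × Finset W => z ∈ i.2.1 ∪ i.2.2), x i =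
        ∑ i ∈ Finset.univ.filter (fun i : κ × Finset W × Finset W =>
          (i.2.1 ∪ i.2.2) ∈ 𝒜), ε ^ (i.2.1 ∪ i.2.2).card := by
      rw [Finset.sum_filter, Finset.sum_filter]
      refine Finset.sum_congr rfl fun i _ => ?_
      rw [hx i]
      by_cases h1 : z ∈ i.2.1 ∪ i.2.2
      · by_cases h2 : Lnk r (i.2.1 ∪ i.2.2)
        · rw [if_pos h1, if_pos h2, if_pos (Finset.mem_filter.2 ⟨Finset.mem_univ _, h1, h2⟩)]
        · rw [if_pos h1, if_neg h2, if_neg fun h => h2 (Finset.mem_filter.1 h).2.2]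
      · rw [if_neg h1, if_neg fun h => h1 (Finset.mem_filter.1 h).2.1]
    rw [e1, ← Finset.sum_fiberwise_of_maps_to (s := Finset.univ.filter
      (fun i : κ × Finset W × Finset W => (i.2.1 ∪ i.2.2) ∈ 𝒜)) (t := 𝒜)
      (g := fun i => i.2.1 ∪ i.2.2) (fun i hi => (Finset.mem_filter.1 hi).2)]
    calc ∑ Z ∈ 𝒜, ∑ i ∈ (Finset.univ.filter
          (fun i : κ × Finset W × Finset W => (i.2.1 ∪ i.2.2) ∈ 𝒜)).filter
          (fun i => i.2.1 ∪ i.2.2 = Z), ε ^ (i.2.1 ∪ i.2.2).card
        ≤ ∑ Z ∈ 𝒜, (k : ℝ) ^ 4 * y ^ Z.card := by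
          refine Finset.sum_le_sum fun Z _ => ?_
          have c1 : ∑ i ∈ (Finset.univ.filter
              (fun i : κ × Finset W × Finset W => (i.2.1 ∪ i.2.2) ∈ 𝒜)).filter
              (fun i => i.2.1 ∪ i.2.2 = Z), ε ^ (i.2.1 ∪ i.2.2).card =
              (((Finset.univ.filter
              (fun i : κ × Finset W × Finset W => (i.2.1 ∪ i.2.2) ∈ 𝒜)).filter
              (fun i => i.2.1 ∪ i.2.2 = Z)).card : ℝ) * ε ^ Z.card := by
            rw [← nsmul_eq_mul, ← Finset.sum_const]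
            exact Finset.sum_congr rfl fun i hi => by rw [(Finset.mem_filter.1 hi).2]
          have c2 : ((Finset.univ.filter
              (fun i : κ × Finset W × Finset W => (i.2.1 ∪ i.2.2) ∈ 𝒜)).filter
              (fun i => i.2.1 ∪ i.2.2 = Z)).card ≤ k ^ 4 * 4 ^ Z.card := by
            have c3 : ((Finset.univ.filter
                (fun i : κ × Finset W × Finset W => (i.2.1 ∪ i.2.2) ∈ 𝒜)).filter
                (fun i => i.2.1 ∪ i.2.2 = Z)) ⊆
                (Finset.univ : Finset κ) ×ˢ (Z.powerset ×ˢ Z.powerset) := by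
              intro i hi
              have hi2 := (Finset.mem_filter.1 hi).2
              rw [Finset.mem_product, Finset.mem_product, Finset.mem_powerset,
                Finset.mem_powerset]
              refine ⟨Finset.mem_univ _, ?_, ?_⟩
              · rw [← hi2]; exact Finset.subset_union_left
              · rw [← hi2]; exact Finset.subset_union_right
            refine (Finset.card_le_card c3).trans ?_
            rw [Finset.card_product, Finset.card_product, Finset.card_powerset,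
              Finset.card_univ, ← mul_pow]
            exact Nat.mul_le_mul_right _ hκ
          rw [c1, hy, mul_pow, ← mul_assoc]
          refine mul_le_mul_of_nonneg_right ?_ (by positivity)
          exact_mod_cast c2
      _ = (k : ℝ) ^ 4 * ∑ Z ∈ 𝒜, y ^ Z.card := by rw [Finset.mul_sum]
      _ ≤ (k : ℝ) ^ 4 * (2 * y) := by
          refine mul_le_mul_of_nonneg_left ?_ (by positivity)
          refine Pool.Agent.Helper13_Conc.linked_sum G (fun u => Finset.univ.filter (nr3 r u))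
            (d := k ^ 5) hadj hdeg y hy0 hy1 z 𝒜 ?_
          intro Z hZ
          obtain ⟨_, h1, h2⟩ := Finset.mem_filter.1 hZ
          exact ⟨h1, hpre Z h2⟩
  have hpr : ∀ A : Set (U → S), ((Finset.univ.filter fun ω => ω ∈ A).card : ℝ) =
      pr A * Fintype.card (U → S) := by
    intro A
    rw [pr, div_mul_cancel₀]
    have : 0 < Fintype.card (U → S) := Fintype.card_pos
    exact_mod_cast this.ne'
  suffices hmain : ∃ ω : U → S, ∀ i : κ × Finset W × Finset W,
      ω ∉ Finset.univ.filter fun ω : U → S => ω ∈ Bad i.1 i.2.1 i.2.2 by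
    obtain ⟨ω, hω⟩ := hmain
    refine ⟨ω, fun j Q Δ hbad => hω (j, Q, Δ) ?_⟩
    exact Finset.mem_filter.2 ⟨Finset.mem_univ _, hbad⟩
  refine Pool.Agent.Helper13_Conc.lll_sum
    (fun i : κ × Finset W × Finset W =>
      Finset.univ.filter fun ω : U → S => ω ∈ Bad i.1 i.2.1 i.2.2) B ?_ x σ ?_ ?_ ?_ ?_
  · intro i ω ω' h hω
    exact Finset.mem_filter.2 ⟨Finset.mem_univ _, hB1 i ω ω' h (Finset.mem_filter.1 hω).2⟩
  · intro i
    rw [hx i]
    split_ifs
    · positivity
    · exact le_rfl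
  · intro i
    rw [hx i]
    split_ifs with h
    · have h1 : 1 ≤ (i.2.1 ∪ i.2.2).card := Finset.card_pos.2 h.1
      have h2 : ε ≤ 1 / 2 := by
        have : (1 : ℝ) ≤ (k : ℝ) ^ 19 := one_le_pow₀ hk1
        have h3 : 1 * ε ≤ (k : ℝ) ^ 19 * ε := mul_le_mul_of_nonneg_right this hε0.le
        linarith
      calc ε ^ (i.2.1 ∪ i.2.2).card ≤ ε ^ 1 :=
            pow_le_pow_of_le_one hε0.le (by linarith) h1
        _ = ε := pow_one _
        _ ≤ 1 / 2 := h2
    · norm_num
  · intro v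
    set N : Finset W := (loc v).biUnion fun w => Finset.univ.filter (nr3 r w) with hN
    have hNc : (N.card : ℝ) ≤ 4 * (k : ℝ) ^ 5 := by
      have h1 : N.card ≤ 4 * k ^ 5 := by
        refine Finset.card_biUnion_le.trans ?_
        calc ∑ w ∈ loc v, (Finset.univ.filter (nr3 r w)).card ≤ ∑ w ∈ loc v, k ^ 5 :=
              Finset.sum_le_sum fun w _ => hdeg w
          _ = (loc v).card * k ^ 5 := by rw [Finset.sum_const, smul_eq_mul]
          _ ≤ 4 * k ^ 5 := Nat.mul_le_mul_right _ (hloc v)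
      exact_mod_cast h1
    have hx0 : ∀ i, 0 ≤ x i := by
      intro i
      rw [hx i]
      split_ifs
      · positivity
      · exact le_rfl
    calc ∑ j ∈ Finset.univ.filter (fun j => v ∈ B j), x j
        ≤ ∑ j ∈ N.biUnion fun z => Finset.univ.filter
          (fun i : κ × Finset W × Finset W => z ∈ i.2.1 ∪ i.2.2), x j := by
          refine Finset.sum_le_sum_of_subset_of_nonneg ?_ fun i _ _ => hx0 i
          intro j hj
          obtain ⟨w, hw, z, hz, hwz⟩ := hB2 j v (Finset.mem_filter.1 hj).2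
          rw [Finset.mem_biUnion]
          refine ⟨z, ?_, Finset.mem_filter.2 ⟨Finset.mem_univ _, hz⟩⟩
          rw [hN, Finset.mem_biUnion]
          exact ⟨w, hw, Finset.mem_filter.2 ⟨Finset.mem_univ _, hwz⟩⟩
      _ ≤ ∑ z ∈ N, ∑ j ∈ Finset.univ.filter
          (fun i : κ × Finset W × Finset W => z ∈ i.2.1 ∪ i.2.2), x j :=
          sum_biUnion_le N _ x hx0
      _ ≤ ∑ _z ∈ N, (k : ℝ) ^ 4 * (2 * y) := Finset.sum_le_sum fun z _ => hfib z
      _ = (N.card : ℝ) * ((k : ℝ) ^ 4 * (2 * y)) := by rw [Finset.sum_const, nsmul_eq_mul]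
      _ ≤ 4 * (k : ℝ) ^ 5 * ((k : ℝ) ^ 4 * (2 * y)) :=
          mul_le_mul_of_nonneg_right hNc (by positivity)
      _ = σ := by rw [hσ, hy]; ring
  · intro i
    rw [hpr]
    refine mul_le_mul_of_nonneg_right ?_ (Nat.cast_nonneg _)
    rcases hB4 i with h | ⟨h1, h2⟩
    · have h0 : pr (Bad i.1 i.2.1 i.2.2) = 0 := by
        rw [h, pr]
        simp
      rw [h0, hx i]
      split_ifs
      · positivity
      · simp
    · rw [hx i, if_pos h1]
      set s : ℕ := (i.2.1 ∪ i.2.2).card with hs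
      have hs1 : (1 : ℝ) ≤ s := by exact_mod_cast Finset.card_pos.2 h1.1
      -- size of the block
      have hBc : ((B i).card : ℝ) ≤ s * (k : ℝ) ^ 10 := by
        have hsub : B i ⊆ (i.2.1 ∪ i.2.2).biUnion fun z =>
            (Finset.univ.filter (nr3 r z)).biUnion fun w =>
              Finset.univ.filter fun u => w ∈ loc u := by
          intro u hu
          obtain ⟨w, hw, z, hz, hwz⟩ := hB2 i u hu
          rw [Finset.mem_biUnion]
          refine ⟨z, hz, ?_⟩
          rw [Finset.mem_biUnion]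
          exact ⟨w, Finset.mem_filter.2 ⟨Finset.mem_univ _, nr3_symm hr hwz⟩,
            Finset.mem_filter.2 ⟨Finset.mem_univ _, hw⟩⟩
        have hc : (B i).card ≤ s * (k ^ 5 * k ^ 5) := by
          refine (Finset.card_le_card hsub).trans (Finset.card_biUnion_le.trans ?_)
          calc ∑ z ∈ i.2.1 ∪ i.2.2, ((Finset.univ.filter (nr3 r z)).biUnion fun w =>
                Finset.univ.filter fun u => w ∈ loc u).card
              ≤ ∑ z ∈ i.2.1 ∪ i.2.2, (k ^ 5 * k ^ 5) := by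
                refine Finset.sum_le_sum fun z _ => Finset.card_biUnion_le.trans ?_
                calc ∑ w ∈ Finset.univ.filter (nr3 r z),
                      (Finset.univ.filter fun u => w ∈ loc u).card
                    ≤ ∑ w ∈ Finset.univ.filter (nr3 r z), k ^ 5 :=
                      Finset.sum_le_sum fun w _ => hlocw w
                  _ = (Finset.univ.filter (nr3 r z)).card * k ^ 5 := by
                      rw [Finset.sum_const, smul_eq_mul]
                  _ ≤ k ^ 5 * k ^ 5 := Nat.mul_le_mul_right _ (hdeg z)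
            _ = s * (k ^ 5 * k ^ 5) := by rw [Finset.sum_const, smul_eq_mul]
        have : ((B i).card : ℝ) ≤ ((s * (k ^ 5 * k ^ 5) : ℕ) : ℝ) := by exact_mod_cast hc
        refine this.trans_eq ?_
        push_cast
        ring
      have hexp : 2 * σ * ((B i).card : ℝ) ≤ s := by
        have hσ0 : 0 ≤ σ := by positivity
        calc 2 * σ * ((B i).card : ℝ) ≤ 2 * σ * (s * (k : ℝ) ^ 10) :=
              mul_le_mul_of_nonneg_left hBc (by positivity)
          _ = (64 * (k : ℝ) ^ 19 * ε) * s := by rw [hσ]; ring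
          _ ≤ 1 * s := mul_le_mul_of_nonneg_right hε1 (Nat.cast_nonneg _)
          _ = s := one_mul _
      refine h2.trans ?_
      rw [hε, ← Real.exp_nat_mul, ← Real.exp_add]
      refine Real.exp_le_exp.2 ?_
      have h3 : (s : ℝ) ≤ (L : ℝ) ^ 2 / 2 * s := by
        have h4 : (1 : ℝ) ≤ (L : ℝ) ^ 2 / 2 := by nlinarith
        nlinarith
      linarith

end Pool.Agent.LAP.H13
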